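import Mathlib
import Pool.Agent.Helper291.IPRCore

set_option autoImplicit false

namespace Pool.Agent.Results.MP_68293e_co.Characterization

open Pool.Agent.Helper291.IPRCore

/-- The `ω × ω` integer matrix `A` (row `i` is the finitely supported function `A i`) is image
partition regular over the positive integers. -/
def ImagePartitionRegular (A : ℕ → (ℕ →₀ ℤ)) : Prop :=
  ∀ (r : ℕ) (c : ℕ → Fin r), ∃ x : ℕ → ℕ, (∀ n, 0 < x n) ∧ ∃ j : Fin r, ∀ i : ℕ, ∃ y : ℕ,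
    0 < y ∧ ((A i).sum fun n e => e * (x n : ℤ)) = (y : ℤ) ∧ c y = j

/-- The rows of `M(a)`. -/
def Rows {k : ℕ} (a : Fin k → ℤ) : Set (ℕ →₀ ℤ) :=
  {ρ | ∃ n : ℕ, ρ = Finsupp.single n 1} ∪
  {ρ | ∃ ν : Fin k → ℕ, StrictMono ν ∧ ρ = ∑ i, Finsupp.single (ν i) (a i)}

theorem row_dot {k : ℕ} (a : Fin k → ℤ) (ν : Fin k → ℕ) (x : ℕ → ℕ) :
    ((∑ i, Finsupp.single (ν i) (a i) : ℕ →₀ ℤ).sum fun n e => e * (x n : ℤ))
      = ∑ i, a i * (x (ν i) : ℤ) := by
  rw [← Finsupp.sum_finsetSum_index]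
  · apply Finset.sum_congr rfl
    intro i _
    rw [Finsupp.sum_single_index]
    ring
  · intro n; ring
  · intro n e f; ring

theorem ipr_iff {k : ℕ} (a : Fin k → ℤ) (A : ℕ → (ℕ →₀ ℤ)) (hA : Set.range A = Rows a) :
    ImagePartitionRegular A ↔ SumIPR a := by
  constructor
  · intro h κ _ c
    obtain ⟨x, hx, j, hj⟩ := h (Nat.card κ) (fun y => Finite.equivFin κ (c y))
    refine ⟨x, hx, (Finite.equivFin κ).symm j, ?_, ?_⟩
    · intro n
      have hmem : Finsupp.single n (1 : ℤ) ∈ Set.range A := by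
        rw [hA]; exact Or.inl ⟨n, rfl⟩
      obtain ⟨i, hi⟩ := hmem
      obtain ⟨y, _, hy2, hy3⟩ := hj i
      rw [hi, Finsupp.sum_single_index (by ring)] at hy2
      have : y = x n := by
        have : (y : ℤ) = x n := by rw [← hy2]; ring
        exact_mod_cast this
      rw [← this, ← hy3]; simp
    · intro ν hν
      have hmem : (∑ i, Finsupp.single (ν i) (a i) : ℕ →₀ ℤ) ∈ Set.range A := by
        rw [hA]; exact Or.inr ⟨ν, hν, rfl⟩
      obtain ⟨i, hi⟩ := hmem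
      obtain ⟨y, hy1, hy2, hy3⟩ := hj i
      rw [hi, row_dot] at hy2
      exact ⟨y, hy1, hy2, by rw [← hy3]; simp⟩
  · intro h r c
    obtain ⟨x, hx, j, hj1, hj2⟩ := h (Fin r) c
    refine ⟨x, hx, j, ?_⟩
    intro i
    have hmem : A i ∈ Rows a := by rw [← hA]; exact ⟨i, rfl⟩
    rcases hmem with ⟨n, hn⟩ | ⟨ν, hν, hρ⟩
    · refine ⟨x n, hx n, ?_, hj1 n⟩
      rw [hn, Finsupp.sum_single_index (by ring)]
      ring
    · obtain ⟨y, hy1, hy2, hy3⟩ := hj2 ν hν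
      refine ⟨y, hy1, ?_, hy3⟩
      rw [hρ, row_dot]
      exact hy2

/-- Sanity: for every sequence there is an `ω × ω` matrix whose rows are exactly those of `M(a)`. -/
theorem exists_matrix {k : ℕ} (a : Fin k → ℤ) : ∃ A : ℕ → (ℕ →₀ ℤ), Set.range A = Rows a := by
  have hne : (Rows a).Nonempty := ⟨Finsupp.single 0 1, Or.inl ⟨0, rfl⟩⟩
  obtain ⟨A, hA⟩ := (Set.to_countable (Rows a)).exists_eq_range hne
  exact ⟨A, hA.symm⟩

theorem result (k : ℕ) (a : Fin k → ℤ) (ha : ∀ i, a i ≠ 0) (A : ℕ → (ℕ →₀ ℤ))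
    (hA : Set.range A = Rows a) :
    ImagePartitionRegular A ↔
      (∑ i, a i = 1 ∨ ∃ h : 0 < k, a ⟨k - 1, Nat.sub_lt h one_pos⟩ = 1 ∧
        (∑ i, a i = 0 ∨ ∀ i, a i = 1)) := by
  rw [ipr_iff a A hA]
  constructor
  · exact necessity a ha
  · rintro (h | ⟨hk, hlast, h | h⟩)
    · exact suff_one a h
    · exact suff_zero a hk h hlast
    · exact suff_ones a hk h


end Pool.Agent.Results.MP_68293e_co.Characterization
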